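import Pool.Agent.W523.LV.Stmts2
import Pool.Agent.H394R3.ET.Src

/-!
# LV-SRC: the source term produced by a forcing with boundary masses
-/

set_option autoImplicit false

open Finset MeasureTheory

namespace Pool.Agent.W356.LV

open Pool.Agent.H96R3.BC Pool.Agent.H336R4.BC
open Pool.Agent.H394R3.BC (Ker cellB cellM cellB_poly cellB_sub cellB_abs_le Ker_cont_left Ker_cont_right
  Ker_taylor_gen Ker_le_pow cell_taylor fac_pos one_le_fac Ker_eq cellM_nonneg)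
open Pool.Agent.H394R3.ET (cell_taylor0 one_le_log_CC)
open Pool.Agent.W523.LV

lemma vv_end {Q j₀ : ℕ} (hQ : 1 ≤ Q) (j : ℕ) : vv Q j₀ (j ^ (2 * Q)) = UU j₀ j := by
  have h4 : 4 * Q ≠ 0 := by omega
  have h : vv Q j₀ (j ^ (2 * Q)) ^ (4 * Q) = UU j₀ j ^ (4 * Q) := by
    rw [vv_pow hQ, UU_pow]
    push_cast
    rfl
  exact (pow_left_inj₀ (vv_nonneg _ _ _) (UU_nonneg _ _) h4).mp h

/-- the extended cell -/
def SS (Q j : ℕ) : Finset ℕ := insert (j ^ (2 * Q)) (CC Q j)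

/-- the extended masses -/
noncomputable def AX (Q j₀ : ℕ) (s : ℕ → ℝ) (j n : ℕ) : ℝ :=
  (if n ∈ CC Q j then s n * (vv Q j₀ n) ^ 2 else 0) + (if n = j ^ (2 * Q) then BB Q j₀ s j else 0) -
    (if n = (j + 1) ^ (2 * Q) then BB Q j₀ s (j + 1) else 0)

lemma pow_lt_succ {Q : ℕ} (hQ : 1 ≤ Q) (j : ℕ) : j ^ (2 * Q) < (j + 1) ^ (2 * Q) :=
  Nat.pow_lt_pow_left (Nat.lt_succ_self j) (by omega)

lemma end_mem {Q : ℕ} (hQ : 1 ≤ Q) (j : ℕ) : (j + 1) ^ (2 * Q) ∈ CC Q j :=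
  mem_CC.2 ⟨pow_lt_succ hQ j, le_rfl⟩

lemma start_notMem (Q j : ℕ) : j ^ (2 * Q) ∉ CC Q j := by
  rw [mem_CC]
  omega

lemma sum_SS {Q : ℕ} (hQ : 1 ≤ Q) (j₀ : ℕ) (s : ℕ → ℝ) (j : ℕ) (g : ℝ → ℝ) :
    ∑ n ∈ SS Q j, AX Q j₀ s j n * g (vv Q j₀ n) =
      ∑ p ∈ CC Q j, s p * (vv Q j₀ p) ^ 2 * g (vv Q j₀ p) + BB Q j₀ s j * g (UU j₀ j) -
        BB Q j₀ s (j + 1) * g (UU j₀ (j + 1)) := by
  unfold SS AX
  have hlt := pow_lt_succ hQ j
  have hne : j ^ (2 * Q) ≠ (j + 1) ^ (2 * Q) := hlt.ne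
  rw [Finset.sum_insert (start_notMem Q j), if_neg (start_notMem Q j), if_pos rfl, if_neg hne,
    vv_end hQ]
  have h1 : ∀ n ∈ CC Q j, ((if n ∈ CC Q j then s n * (vv Q j₀ n) ^ 2 else 0) +
      (if n = j ^ (2 * Q) then BB Q j₀ s j else 0) -
        (if n = (j + 1) ^ (2 * Q) then BB Q j₀ s (j + 1) else 0)) * g (vv Q j₀ n) =
      s n * (vv Q j₀ n) ^ 2 * g (vv Q j₀ n) -
        (if n = (j + 1) ^ (2 * Q) then BB Q j₀ s (j + 1) * g (vv Q j₀ n) else 0) := by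
    intro n hn
    have hn1 : n ≠ j ^ (2 * Q) := by
      rintro rfl
      exact start_notMem Q j hn
    rw [if_pos hn, if_neg hn1]
    split_ifs <;> ring
  rw [Finset.sum_congr rfl h1, Finset.sum_sub_distrib, Finset.sum_ite_eq' (CC Q j),
    if_pos (end_mem hQ j), vv_end hQ]
  ring

lemma Sj2_eq {Q : ℕ} (hQ : 1 ≤ Q) (j₀ : ℕ) (s : ℕ → ℝ) (j : ℕ) (v : ℝ) :
    Sj2 Q j₀ s j v = cellB (AX Q j₀ s j) (vv Q j₀) (fun _ => 0) (SS Q j) (UU j₀ j) (UU j₀ (j + 1))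
      (fun w => Ker (4 * Q + 3) w v) := by
  unfold cellB
  simp only [zero_mul, intervalIntegral.integral_zero, sub_zero]
  rw [sum_SS hQ j₀ s j (fun w => Ker (4 * Q + 3) w v)]
  rfl

lemma Sj2_mom {Q j₀ : ℕ} (hQ : 1 ≤ Q) {s : ℕ → ℝ} (hs : Frc2 Q j₀ s) {j : ℕ} (hj : j₀ ≤ j) (i : ℕ)
    (hi : i < 4 * Q + 4) :
    cellB (AX Q j₀ s j) (vv Q j₀) (fun _ => 0) (SS Q j) (UU j₀ j) (UU j₀ (j + 1))
      (fun w => (w - UU j₀ j) ^ i) = 0 := by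
  unfold cellB
  simp only [zero_mul, intervalIntegral.integral_zero, sub_zero]
  rw [sum_SS hQ j₀ s j (fun w => (w - UU j₀ j) ^ i)]
  have h := hs.mom j hj ((Polynomial.X - Polynomial.C (UU j₀ j)) ^ i) (by
    rw [Polynomial.natDegree_pow, Polynomial.natDegree_X_sub_C, mul_one]
    exact hi)
  simp only [Polynomial.eval_pow, Polynomial.eval_sub, Polynomial.eval_X, Polynomial.eval_C] at h
  linarith

lemma card_CC_ge {Q : ℕ} (hQ : 1 ≤ Q) (j : ℕ) :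
    ((j : ℝ) + 1) ^ (2 * Q - 1) ≤ ((CC Q j).card : ℝ) := by
  have h1 : (CC Q j).card = (j + 1) ^ (2 * Q) - j ^ (2 * Q) := by
    unfold CC
    rw [Nat.card_Ioc]
  have h2 : (j + 1) ^ (2 * Q - 1) + j ^ (2 * Q) ≤ (j + 1) ^ (2 * Q) := by
    obtain ⟨m, hm⟩ : ∃ m, 2 * Q = m + 1 := ⟨2 * Q - 1, by omega⟩
    rw [hm, Nat.add_sub_cancel, pow_succ, pow_succ]
    have h3 : j ^ m ≤ (j + 1) ^ m := Nat.pow_le_pow_left (by omega) m
    have h4 : j ^ m * j ≤ (j + 1) ^ m * j := Nat.mul_le_mul_right j h3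
    calc (j + 1) ^ m + j ^ m * j ≤ (j + 1) ^ m + (j + 1) ^ m * j := by omega
      _ = (j + 1) ^ m * (j + 1) := by ring
  have h3 : (j + 1) ^ (2 * Q - 1) ≤ (CC Q j).card := by
    rw [h1]
    omega
  exact_mod_cast h3

lemma Sj2_mass {Q j₀ : ℕ} (hQ : 1 ≤ Q) (hj0 : 3 ≤ j₀) {s : ℕ → ℝ} (hs : Frc2 Q j₀ s) {j : ℕ}
    (hj : j₀ ≤ j) :
    cellM (AX Q j₀ s j) (fun _ => 0) (SS Q j) (UU j₀ j) (UU j₀ (j + 1)) ≤
      (CC Q j).card * UU j₀ (j + 1) ^ 2 := by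
  unfold cellM
  simp only [abs_zero, intervalIntegral.integral_zero, add_zero]
  have hU0 := UU_nonneg j₀ j
  have hUm := Pool.Agent.H96R3.BC.UU_mono (j₀ := j₀) (show j ≤ j + 1 by omega)
  have hU2 : UU j₀ j ^ 2 ≤ UU j₀ (j + 1) ^ 2 := pow_le_pow_left₀ hU0 hUm 2
  have hU3 : 0 ≤ UU j₀ (j + 1) ^ 2 := sq_nonneg _
  -- boundary masses
  have hc := card_CC_ge hQ j
  have hB1 : |BB Q j₀ s j| ≤ 1 / 4 * ((CC Q j).card * UU j₀ (j + 1) ^ 2) := by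
    refine (hs.bb j hj).trans ?_
    rw [mul_assoc]
    apply mul_le_mul_of_nonneg_left _ (by norm_num)
    apply mul_le_mul _ hU2 (sq_nonneg _) (Nat.cast_nonneg _)
    refine le_trans ?_ hc
    exact pow_le_pow_left₀ (Nat.cast_nonneg j) (by linarith) _
  have hB2 : |BB Q j₀ s (j + 1)| ≤ 1 / 4 * ((CC Q j).card * UU j₀ (j + 1) ^ 2) := by
    refine (hs.bb (j + 1) (by omega)).trans ?_
    rw [mul_assoc]
    apply mul_le_mul_of_nonneg_left _ (by norm_num)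
    apply mul_le_mul_of_nonneg_right _ hU3
    push_cast
    exact hc
  have h : ∀ n ∈ CC Q j, |s n * (vv Q j₀ n) ^ 2| ≤ 1 / 2 * UU j₀ (j + 1) ^ 2 := by
    intro n hn
    have h1 := one_le_log_CC hQ hj0 hj hn
    have h2 := hs.bd n
    have h3 : 1 / 2 / (Real.log n) ^ 2 ≤ 1 / 2 := by
      apply div_le_self (by norm_num)
      nlinarith
    have h4 := vv_mem (j₀ := j₀) hQ hn
    rw [abs_mul, abs_of_nonneg (sq_nonneg (vv Q j₀ n))]
    exact mul_le_mul (h2.trans h3) (pow_le_pow_left₀ (vv_nonneg _ _ _) h4.2 2) (sq_nonneg _)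
      (by norm_num)
  have hlt := pow_lt_succ hQ j
  unfold SS
  rw [Finset.sum_insert (start_notMem Q j)]
  have hA0 : |AX Q j₀ s j (j ^ (2 * Q))| = |BB Q j₀ s j| := by
    unfold AX
    rw [if_neg (start_notMem Q j), if_pos rfl, if_neg hlt.ne, zero_add, sub_zero]
  have hA : ∀ n ∈ CC Q j, |AX Q j₀ s j n| ≤ |s n * (vv Q j₀ n) ^ 2| +
      (if n = (j + 1) ^ (2 * Q) then |BB Q j₀ s (j + 1)| else 0) := by
    intro n hn
    have hn1 : n ≠ j ^ (2 * Q) := by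
      rintro rfl
      exact start_notMem Q j hn
    unfold AX
    rw [if_pos hn, if_neg hn1, add_zero]
    split_ifs
    · exact abs_sub _ _
    · rw [sub_zero, add_zero]
  rw [hA0]
  have h5 : ∑ n ∈ CC Q j, |AX Q j₀ s j n| ≤ 1 / 2 * ((CC Q j).card * UU j₀ (j + 1) ^ 2) +
      |BB Q j₀ s (j + 1)| := by
    calc ∑ n ∈ CC Q j, |AX Q j₀ s j n| ≤ ∑ n ∈ CC Q j, (|s n * (vv Q j₀ n) ^ 2| +
          (if n = (j + 1) ^ (2 * Q) then |BB Q j₀ s (j + 1)| else 0)) := Finset.sum_le_sum hA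
      _ = ∑ n ∈ CC Q j, |s n * (vv Q j₀ n) ^ 2| + |BB Q j₀ s (j + 1)| := by
          rw [Finset.sum_add_distrib, Finset.sum_ite_eq' (CC Q j), if_pos (end_mem hQ j)]
      _ ≤ ∑ n ∈ CC Q j, 1 / 2 * UU j₀ (j + 1) ^ 2 + |BB Q j₀ s (j + 1)| := by
          gcongr with n hn
          exact h n hn
      _ = _ := by
          rw [Finset.sum_const, nsmul_eq_mul]
          ring
  linarith

lemma mem_SS {Q j₀ : ℕ} (hQ : 1 ≤ Q) {j : ℕ} :
    ∀ n ∈ SS Q j, vv Q j₀ n ∈ Set.Icc (UU j₀ j) (UU j₀ (j + 1)) := by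
  intro n hn
  rcases Finset.mem_insert.1 hn with rfl | hn
  · rw [vv_end hQ]
    exact ⟨le_rfl, Pool.Agent.H96R3.BC.UU_mono (by omega)⟩
  · exact vv_mem hQ hn

lemma Sj2_small {Q j₀ : ℕ} (hQ : 1 ≤ Q) (hj0 : 3 ≤ j₀) {s : ℕ → ℝ} (hs : Frc2 Q j₀ s) (i : ℕ)
    {v : ℝ} (hv : 0 ≤ v) : |Sj2 Q j₀ s (j₀ + i) v| ≤ qa Q j₀ i * v ^ (8 * Q + 7) := by
  rw [Sj2_eq hQ]
  have hU := Pool.Agent.H96R3.BC.UU_mono (j₀ := j₀) (show j₀ + i ≤ j₀ + i + 1 by omega)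
  have h := cell_taylor0 (4 * Q + 3) (4 * Q + 4) (A := AX Q j₀ s (j₀ + i)) (u := vv Q j₀)
    (f := fun _ => 0) (S := SS Q (j₀ + i)) (a := UU j₀ (j₀ + i)) (b := UU j₀ (j₀ + i + 1))
    continuous_const (UU_nonneg _ _) hU (mem_SS hQ) hv (fun l hl => Sj2_mom hQ hs (by omega) l hl)
  have hm := Sj2_mass hQ hj0 hs (j := j₀ + i) (by omega)
  refine h.trans ?_
  have h1 : 0 ≤ (UU j₀ (j₀ + i + 1) - UU j₀ (j₀ + i)) ^ (4 * Q + 4) := pow_nonneg (by linarith) _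
  have h2 : (0:ℝ) ≤ v ^ (4 * Q + 3 + (4 * Q + 4)) := pow_nonneg hv _
  calc _ ≤ (UU j₀ (j₀ + i + 1) - UU j₀ (j₀ + i)) ^ (4 * Q + 4) * v ^ (4 * Q + 3 + (4 * Q + 4)) *
        ((CC Q (j₀ + i)).card * UU j₀ (j₀ + i + 1) ^ 2) :=
          mul_le_mul_of_nonneg_left hm (by positivity)
    _ = _ := by
        unfold qa
        have : 4 * Q + 3 + (4 * Q + 4) = 8 * Q + 7 := by ring
        rw [this]
        ring

lemma Sj2_large {Q j₀ : ℕ} (hQ : 1 ≤ Q) (hj0 : 3 ≤ j₀) {s : ℕ → ℝ} (hs : Frc2 Q j₀ s) (i : ℕ)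
    {v : ℝ} (hv : 0 ≤ v) : |Sj2 Q j₀ s (j₀ + i) v| ≤ qb Q j₀ i * v ^ (3 * Q + 2) := by
  rw [Sj2_eq hQ]
  have hU := Pool.Agent.H96R3.BC.UU_mono (j₀ := j₀) (show j₀ + i ≤ j₀ + i + 1 by omega)
  have hUp := UU_pos (j₀ := j₀) (j := j₀ + i) (by omega) (by omega)
  have h := cell_taylor (4 * Q + 3) (2 * Q + 1) (A := AX Q j₀ s (j₀ + i)) (u := vv Q j₀)
    (f := fun _ => 0) (S := SS Q (j₀ + i)) (a := UU j₀ (j₀ + i)) (b := UU j₀ (j₀ + i + 1))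
    continuous_const hUp hU (mem_SS hQ) hv
    (fun l hl => Sj2_mom hQ hs (by omega) l (by omega))
  have hm := Sj2_mass hQ hj0 hs (j := j₀ + i) (by omega)
  refine h.trans ?_
  have e1 : (v / UU j₀ (j₀ + i)) ^ (((4 * Q + 3 + (2 * Q + 1) : ℕ) : ℝ) / 2) =
      (v / UU j₀ (j₀ + i)) ^ (3 * Q + 2) := by
    rw [← Real.rpow_natCast]
    congr 1
    push_cast
    ring
  rw [e1]
  have h1 : 0 ≤ (UU j₀ (j₀ + i + 1) - UU j₀ (j₀ + i)) ^ (2 * Q + 1) := pow_nonneg (by linarith) _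
  have h2 : (0:ℝ) ≤ (v / UU j₀ (j₀ + i)) ^ (3 * Q + 2) := pow_nonneg (div_nonneg hv hUp.le) _
  have h3 := one_le_fac (2 * Q + 1)
  calc _ ≤ (UU j₀ (j₀ + i + 1) - UU j₀ (j₀ + i)) ^ (2 * Q + 1) *
        (v / UU j₀ (j₀ + i)) ^ (3 * Q + 2) * ((CC Q (j₀ + i)).card * UU j₀ (j₀ + i + 1) ^ 2) := by
        apply mul_le_mul _ hm (cellM_nonneg _ _ _ hU) (by positivity)
        exact mul_le_mul_of_nonneg_right (div_le_self h1 h3) h2
    _ = _ := by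
        unfold qb
        rw [div_pow]
        ring

lemma Sj2_cont {Q : ℕ} (hQ : 1 ≤ Q) (j₀ : ℕ) (s : ℕ → ℝ) (j : ℕ) :
    Continuous fun v => Sj2 Q j₀ s j v := by
  have h : (fun v => Sj2 Q j₀ s j v) = fun v => ∑ n ∈ SS Q j, AX Q j₀ s j n *
      Ker (4 * Q + 3) (vv Q j₀ n) v := by
    funext v
    rw [Sj2_eq hQ]
    unfold cellB
    simp only [zero_mul, intervalIntegral.integral_zero, sub_zero]
  rw [h]
  exact continuous_finsetSum _ fun p _ => continuous_const.mul (Ker_cont_right _ _)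

theorem taskSrc2 : TaskSrc2 := by
  intro Q j₀ s hQ hj0 hs
  refine ⟨fun i v hv => Sj2_small hQ hj0 hs i hv, ?_⟩
  intro κ hκ ha hb ha2 hb2
  have hsm : ∀ v : ℝ, 0 ≤ v → Summable fun i : ℕ => Sj2 Q j₀ s (j₀ + i) v := fun v hv =>
    Summable.of_norm_bounded (ha.mul_right (v ^ (8 * Q + 7))) fun i => by
      rw [Real.norm_eq_abs]; exact Sj2_small hQ hj0 hs i hv
  refine ⟨hsm, ?_, ?_⟩
  · intro v hv
    have hsum := hsm v hv
    have h0 : |∑' i : ℕ, Sj2 Q j₀ s (j₀ + i) v| ≤ ∑' i, |Sj2 Q j₀ s (j₀ + i) v| := by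
      have := norm_tsum_le_tsum_norm (f := fun i => Sj2 Q j₀ s (j₀ + i) v)
        (by simpa using hsum.abs)
      simpa using this
    refine h0.trans ?_
    unfold NN
    split_ifs with h
    · calc ∑' i, |Sj2 Q j₀ s (j₀ + i) v| ≤ ∑' i, qa Q j₀ i * v ^ (8 * Q + 7) :=
            Summable.tsum_le_tsum (fun i => Sj2_small hQ hj0 hs i hv) hsum.abs (ha.mul_right _)
        _ = (∑' i, qa Q j₀ i) * v ^ (8 * Q + 7) := tsum_mul_right
        _ ≤ κ / 8 * v ^ (4 * Q + 3) := by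
            apply mul_le_mul ha2 (pow_le_pow_of_le_one hv h (by omega)) (by positivity)
              (by positivity)
    · calc ∑' i, |Sj2 Q j₀ s (j₀ + i) v| ≤ ∑' i, qb Q j₀ i * v ^ (3 * Q + 2) :=
            Summable.tsum_le_tsum (fun i => Sj2_large hQ hj0 hs i hv) hsum.abs (hb.mul_right _)
        _ = (∑' i, qb Q j₀ i) * v ^ (3 * Q + 2) := tsum_mul_right
        _ ≤ κ / 8 * v ^ (3 * Q + 2) := mul_le_mul_of_nonneg_right hb2 (by positivity)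
  · rw [continuous_iff_continuousAt]
    intro v₀
    have hon : ContinuousOn (fun v : ℝ => ∑' i : ℕ, Sj2 Q j₀ s (j₀ + i) (max v 0))
        (Set.Iio (|v₀| + 1)) := by
      refine continuousOn_tsum (u := fun i => qa Q j₀ i * (|v₀| + 1) ^ (8 * Q + 7)) (fun i => ?_)
        (ha.mul_right _) ?_
      · exact ((Sj2_cont hQ j₀ s (j₀ + i)).comp (continuous_id.max continuous_const)).continuousOn
      · intro i v hv
        rw [Real.norm_eq_abs]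
        refine (Sj2_small hQ hj0 hs i (le_max_right _ _)).trans ?_
        apply mul_le_mul_of_nonneg_left _ (q_nonneg Q j₀ i).1
        apply pow_le_pow_left₀ (le_max_right _ _)
        exact max_le (le_of_lt hv) (by positivity)
    refine hon.continuousAt (Iio_mem_nhds ?_)
    have := le_abs_self v₀
    linarith

end Pool.Agent.W356.LV
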