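import Pool.Agent.W523.LV.Stmts2
import Pool.Agent.W356.LV.Src2

/-!
# LV-CELL: exact moments in a cell by a polynomial correction
-/

set_option autoImplicit false

open Finset MeasureTheory

namespace Pool.Agent.W356.LV

open Pool.Agent.H96R3.BC (vv UU CC mem_CC)
open Pool.Agent.W523.LV

/-! ### linearity -/

lemma blk_add (b : ℕ → ℕ) (L : ℕ) (m m' : ℕ → ℝ) (n : ℕ) :
    blk b L (fun k => m k + m' k) n = blk b L m n + blk b L m' n := by
  unfold blk
  rw [← Finset.sum_add_distrib]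
  refine Finset.sum_congr rfl fun i _ => ?_
  split_ifs
  · ring
  · ring

lemma blk_smul (b : ℕ → ℕ) (L : ℕ) (c : ℝ) (m : ℕ → ℝ) (n : ℕ) :
    blk b L (fun k => c * m k) n = c * blk b L m n := by
  unfold blk
  rw [Finset.mul_sum]
  refine Finset.sum_congr rfl fun i _ => ?_
  split_ifs
  · ring
  · ring

lemma itp_add (b : ℕ → ℕ) (L : ℕ) (m m' : ℕ → ℝ) (n : ℕ) :
    itp b L (fun k => m k + m' k) n = itp b L m n + itp b L m' n := by
  unfold itp
  simp only [blk_add, Finset.sum_add_distrib]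
  ring

lemma itp_smul (b : ℕ → ℕ) (L : ℕ) (c : ℝ) (m : ℕ → ℝ) (n : ℕ) :
    itp b L (fun k => c * m k) n = c * itp b L m n := by
  unfold itp
  simp only [blk_smul, ← Finset.mul_sum]
  ring

lemma gw_cont (j₀ J : ℕ) (q : Polynomial ℝ) : Continuous fun v : ℝ => v * q.eval (tau j₀ J v) := by
  have h1 : Continuous (fun v : ℝ => tau j₀ J v) := by
    unfold tau
    fun_prop
  exact continuous_id.mul (q.continuous.comp h1)

lemma gw_add (Q j₀ J : ℕ) (q q' : Polynomial ℝ) (n : ℕ) :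
    gw Q j₀ J (q + q') n = gw Q j₀ J q n + gw Q j₀ J q' n := by
  unfold gw
  rw [← intervalIntegral.integral_add ((gw_cont j₀ J q).intervalIntegrable _ _)
    ((gw_cont j₀ J q').intervalIntegrable _ _)]
  congr 1
  ext v
  rw [Polynomial.eval_add, mul_add]

lemma gw_smul (Q j₀ J : ℕ) (c : ℝ) (q : Polynomial ℝ) (n : ℕ) :
    gw Q j₀ J (c • q) n = c * gw Q j₀ J q n := by
  unfold gw
  rw [← intervalIntegral.integral_const_mul]
  congr 1
  ext v
  rw [Polynomial.eval_smul, smul_eq_mul]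
  ring

lemma nm_nonneg (K : ℕ) (q : Polynomial ℝ) : 0 ≤ nm K q :=
  Finset.sum_nonneg fun _ _ => abs_nonneg _

/-- the bilinear form -/
noncomputable def Bform (Q j₀ J L : ℕ) (b : ℕ → ℕ) (W : ℕ → ℝ) (S : Finset ℕ) :
    Polynomial ℝ →ₗ[ℝ] Polynomial ℝ →ₗ[ℝ] ℝ :=
  LinearMap.mk₂ ℝ (fun r q => ∑ n ∈ S, itp b L (fun k => W k * r.eval (tau j₀ J (vv Q j₀ k))) n *
      (2 * j₀ * gw Q j₀ J q n))
    (by
      intro r r' q
      rw [← Finset.sum_add_distrib]
      refine Finset.sum_congr rfl fun n _ => ?_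
      rw [← add_mul, ← itp_add]
      congr 2
      funext k
      rw [Polynomial.eval_add, mul_add])
    (by
      intro c r q
      rw [smul_eq_mul, Finset.mul_sum]
      refine Finset.sum_congr rfl fun n _ => ?_
      have e : (fun k => W k * (c • r).eval (tau j₀ J (vv Q j₀ k))) =
          fun k => c * (W k * r.eval (tau j₀ J (vv Q j₀ k))) := by
        funext k
        rw [Polynomial.eval_smul, smul_eq_mul]
        ring
      rw [e, itp_smul]
      ring)
    (by
      intro r q q'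
      rw [← Finset.sum_add_distrib]
      refine Finset.sum_congr rfl fun n _ => ?_
      rw [gw_add]
      ring)
    (by
      intro c r q
      rw [smul_eq_mul, Finset.mul_sum]
      refine Finset.sum_congr rfl fun n _ => ?_
      rw [gw_smul]
      ring)

/-- the linear form -/
noncomputable def lform (Q j₀ J L : ℕ) (b : ℕ → ℕ) (m : ℕ → ℝ) (S : Finset ℕ) :
    Polynomial ℝ →ₗ[ℝ] ℝ where
  toFun q := -∑ n ∈ S, itp b L m n * (2 * j₀ * gw Q j₀ J q n)
  map_add' := by
    intro q q'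
    rw [← neg_add, ← Finset.sum_add_distrib]
    congr 1
    refine Finset.sum_congr rfl fun n _ => ?_
    rw [gw_add]
    ring
  map_smul' := by
    intro c q
    rw [RingHom.id_apply, smul_eq_mul, mul_neg, Finset.mul_sum]
    congr 1
    refine Finset.sum_congr rfl fun n _ => ?_
    rw [gw_smul]
    ring

/-- the block of an integer -/
lemma exists_block (b : ℕ → ℕ) (L n : ℕ) (h0 : b 0 ≤ n) (hL : n < b L) :
    ∃ i, i < L ∧ b i ≤ n ∧ n < b (i + 1) := by
  induction L with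
  | zero => omega
  | succ L ih =>
    by_cases h : n < b L
    · obtain ⟨i, h1, h2, h3⟩ := ih h
      exact ⟨i, by omega, h2, h3⟩
    · exact ⟨L, by omega, by omega, hL⟩

/-- group condition -/
lemma groups (K len : ℕ) (hK : 1 ≤ K) (hlen : 16 * K ≤ len) (a b : ℕ) (hab : b = a + len)
    (t ω W : ℕ → ℝ) (ht0 : t a = 0) (ht1 : t b = 1)
    (hmono : ∀ n k : ℕ, a ≤ n → n ≤ k → k ≤ b → ((k : ℝ) - n) / (2 * len) ≤ t k - t n ∧
      t k - t n ≤ 2 * ((k : ℝ) - n) / len)
    (hω : ∀ n : ℕ, a ≤ n → n < b → 1 / (2 * (len : ℝ)) ≤ ω n)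
    (hW : ∀ x y : ℕ, a ≤ x → y ≤ b → x < y → (len : ℝ) ≤ 32 * K * ((y : ℝ) - x) →
      ((y : ℝ) - x) ≤ 2 * (((Ico x y).filter (fun n => 1 / 2 ≤ W n)).card : ℝ))
    (i : ℕ) (hi : i < 2 * K) :
    1 / (32 * (K : ℝ)) ≤ ∑ n ∈ (Ico a b).filter (fun n => (i : ℝ) / (2 * K) ≤ t n ∧
      t n ≤ ((i : ℝ) + 1) / (2 * K) ∧ 1 / 2 ≤ W n), ω n := by
  classical
  have hK0 : (0 : ℝ) < K := by exact_mod_cast hK
  have hlen0 : (0 : ℝ) < len := by
    have : 0 < len := by omega
    exact_mod_cast this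
  have hlenK : 16 * (K : ℝ) ≤ len := by exact_mod_cast hlen
  have hmon : ∀ n k : ℕ, a ≤ n → n ≤ k → k ≤ b → t n ≤ t k := by
    intro n k h1 h2 h3
    have h4 := (hmono n k h1 h2 h3).1
    have h5 : (n : ℝ) ≤ k := by exact_mod_cast h2
    have h6 : 0 ≤ ((k : ℝ) - n) / (2 * len) := div_nonneg (by linarith) (by linarith)
    linarith
  have hi1 : ((i : ℝ) + 1) / (2 * K) ≤ 1 := by
    rw [div_le_one (by positivity)]
    have : i + 1 ≤ 2 * K := hi
    exact_mod_cast this
  have hi0 : (i : ℝ) / (2 * K) ≤ ((i : ℝ) + 1) / (2 * K) :=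
    div_le_div_of_nonneg_right (by linarith) (by positivity)
  have hexx : ∃ n, a ≤ n ∧ n ≤ b ∧ (i : ℝ) / (2 * K) ≤ t n :=
    ⟨b, by omega, le_rfl, by rw [ht1]; linarith⟩
  have hexy : ∃ n, a ≤ n ∧ n ≤ b ∧ ((i : ℝ) + 1) / (2 * K) ≤ t n :=
    ⟨b, by omega, le_rfl, by rw [ht1]; exact hi1⟩
  obtain ⟨hx1, hx2, hx3⟩ := Nat.find_spec hexx
  obtain ⟨hy1, hy2, hy3⟩ := Nat.find_spec hexy
  have hxmin := fun n (h : n < Nat.find hexx) => Nat.find_min hexx h
  have hymin := fun n (h : n < Nat.find hexy) => Nat.find_min hexy h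
  generalize Nat.find hexx = x at hx1 hx2 hx3 hxmin
  generalize Nat.find hexy = y at hy1 hy2 hy3 hymin
  have hxy : x ≤ y := by
    by_contra hlt
    push Not at hlt
    exact hxmin y hlt ⟨hy1, hy2, hi0.trans hy3⟩
  have htx : t x ≤ (i : ℝ) / (2 * K) + 2 / len := by
    rcases Nat.eq_or_lt_of_le hx1 with h | h
    · rw [← h, ht0]
      positivity
    · obtain ⟨z, rfl⟩ : ∃ z, x = z + 1 := ⟨x - 1, by omega⟩
      have h1 := hxmin z (by omega)
      have h2 : t z < (i : ℝ) / (2 * K) := by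
        by_contra h3
        push Not at h3
        exact h1 ⟨by omega, by omega, h3⟩
      have h3 := (hmono z (z + 1) (by omega) (by omega) hx2).2
      push_cast at h3
      have h4 : 2 * ((z : ℝ) + 1 - z) / len = 2 / len := by ring
      rw [h4] at h3
      linarith
  have hdiff : (len : ℝ) / (4 * K) - 1 ≤ (y : ℝ) - x := by
    have h1 := (hmono x y hx1 hxy hy2).2
    have h2 : 1 / (2 * (K : ℝ)) - 2 / len ≤ 2 * ((y : ℝ) - x) / len := by
      have h3 : ((i : ℝ) + 1) / (2 * K) = (i : ℝ) / (2 * K) + 1 / (2 * K) := by ring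
      rw [h3] at hy3
      linarith
    rw [le_div_iff₀ hlen0] at h2
    have h4 : (1 / (2 * (K : ℝ)) - 2 / len) * len = len / (2 * K) - 2 := by
      field_simp
    rw [h4] at h2
    have h5 : (len : ℝ) / (2 * K) = 2 * (len / (4 * K)) := by
      field_simp
      norm_num
    rw [h5] at h2
    linarith
  have hlK : 4 ≤ (len : ℝ) / (4 * K) := by
    rw [le_div_iff₀ (by positivity)]
    linarith
  have hxy2 : x < y := by
    have h1 : (x : ℝ) < y := by linarith
    exact_mod_cast h1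
  have hc := hW x y hx1 hy2 hxy2 (by
    have h1 : (len : ℝ) / (8 * K) ≤ (y : ℝ) - x := by
      have : (len : ℝ) / (8 * K) = (len / (4 * K)) / 2 := by ring
      rw [this]
      linarith
    rw [div_le_iff₀ (by positivity)] at h1
    nlinarith)
  have hsub : (Ico x y).filter (fun n => 1 / 2 ≤ W n) ⊆
      (Ico a b).filter (fun n => (i : ℝ) / (2 * K) ≤ t n ∧
        t n ≤ ((i : ℝ) + 1) / (2 * K) ∧ 1 / 2 ≤ W n) := by
    intro n hn
    rw [Finset.mem_filter, Finset.mem_Ico] at hn ⊢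
    obtain ⟨⟨h1, h2⟩, h3⟩ := hn
    refine ⟨⟨by omega, by omega⟩, ?_, ?_, h3⟩
    · exact hx3.trans (hmon x n hx1 h1 (by omega))
    · by_contra h4
      push Not at h4
      exact hymin n h2 ⟨by omega, by omega, h4.le⟩
  calc 1 / (32 * (K : ℝ)) ≤ (((Ico x y).filter (fun n => 1 / 2 ≤ W n)).card : ℝ) *
        (1 / (2 * (len : ℝ))) := by
        rw [mul_one_div, div_le_div_iff₀ (by positivity) (by positivity)]
        have h1 : (len : ℝ) / (4 * K) - 1 ≤
            2 * (((Ico x y).filter (fun n => 1 / 2 ≤ W n)).card : ℝ) := hdiff.trans hc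
        have h2 : (len : ℝ) - 4 * K ≤
            (2 * (((Ico x y).filter (fun n => 1 / 2 ≤ W n)).card : ℝ)) * (4 * K) := by
          have h3 := mul_le_mul_of_nonneg_right h1 (show (0 : ℝ) ≤ 4 * K by positivity)
          have h4 : ((len : ℝ) / (4 * K) - 1) * (4 * K) = len - 4 * K := by
            field_simp
          rw [h4] at h3
          exact h3
        nlinarith
    _ = ∑ n ∈ (Ico x y).filter (fun n => 1 / 2 ≤ W n), 1 / (2 * (len : ℝ)) := by
        rw [Finset.sum_const, nsmul_eq_mul]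
    _ ≤ ∑ n ∈ (Ico x y).filter (fun n => 1 / 2 ≤ W n), ω n := by
        refine Finset.sum_le_sum fun n hn => ?_
        rw [Finset.mem_filter, Finset.mem_Ico] at hn
        exact hω n (by omega) (by omega)
    _ ≤ _ := by
        refine Finset.sum_le_sum_of_subset_of_nonneg hsub fun n hn _ => ?_
        rw [Finset.mem_filter, Finset.mem_Ico] at hn
        refine le_trans ?_ (hω n hn.1.1 hn.1.2)
        positivity

theorem taskCell (h1 : TaskLina) (h2 : TaskAbel) (h3 : TaskGrid) : TaskCell := by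
  classical
  intro Q hQ
  obtain ⟨ε, CL, hε, hCL, hLina⟩ := h1 (4 * Q + 4) (by omega)
  obtain ⟨CG, hCG, JG, hGrid⟩ := h3 Q hQ
  refine ⟨CL * 2, by positivity, ?_⟩
  intro Lip hLip
  have hK0 : (0 : ℝ) < 4 * (Q : ℝ) + 4 := by positivity
  obtain ⟨J₂, hJ₂⟩ := exists_nat_ge (2 * CG / ε)
  refine ⟨ε / (2 * (Lip + 2 * (4 * (Q : ℝ) + 4))), by positivity,
    max (max JG J₂) (16 * (4 * Q + 4) + 1), ?_⟩
  intro J j₀ hJ hj₀ hj₀J L b hb0 hbL hbm hbp hbs W hW01 hWLip hWa hWb hWcount m lam hlam hm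
  have hJG : JG ≤ J := le_trans (le_trans (le_max_left _ _) (le_max_left _ _)) hJ
  have hJJ₂ : J₂ ≤ J := le_trans (le_trans (le_max_right _ _) (le_max_left _ _)) hJ
  have hJ16 : 16 * (4 * Q + 4) + 1 ≤ J := le_trans (le_max_right _ _) hJ
  obtain ⟨⟨hta, htb⟩, hmono, hom, -, hsum, hgw, hpoly⟩ := hGrid J j₀ hJG hj₀ hj₀J
  obtain ⟨hitp, -, -, hfinal⟩ := h2 Q j₀ J L b hQ hj₀ hj₀J hb0 hbL hbm hbp
    (fun n => m n + 0)
  -- the length of the cell
  have hlt := pow_lt_succ hQ J
  have hlen : (CC Q J).card = (J + 1) ^ (2 * Q) - J ^ (2 * Q) := by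
    unfold CC
    rw [Nat.card_Ioc]
  have hab : (J + 1) ^ (2 * Q) = J ^ (2 * Q) + (CC Q J).card := by omega
  have hlenJ : (J : ℝ) ≤ ((CC Q J).card : ℝ) := by
    refine le_trans ?_ (card_CC_ge hQ J)
    have hJ0 : (0 : ℝ) ≤ J := Nat.cast_nonneg J
    calc (J : ℝ) ≤ (J + 1 : ℝ) := by linarith
      _ = ((J : ℝ) + 1) ^ 1 := (pow_one _).symm
      _ ≤ ((J : ℝ) + 1) ^ (2 * Q - 1) := pow_le_pow_right₀ (by linarith) (by omega)
  have hlenJ' : J ≤ (CC Q J).card := by exact_mod_cast hlenJ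
  generalize hlendef : (CC Q J).card = len at *
  have hlen0 : (0 : ℝ) < len := by
    have : 0 < len := by omega
    exact_mod_cast this
  set S : Finset ℕ := Ico (J ^ (2 * Q)) ((J + 1) ^ (2 * Q)) with hS
  set t : ℕ → ℝ := fun n => tau j₀ J (vv Q j₀ n) with ht
  have hj0 : (0 : ℝ) < j₀ := by exact_mod_cast hj₀
  -- values of t
  have ht01 : ∀ n, J ^ (2 * Q) ≤ n → n ≤ (J + 1) ^ (2 * Q) → 0 ≤ t n ∧ t n ≤ 1 := by
    intro n hn1 hn2
    have e1 := (hmono (J ^ (2 * Q)) n le_rfl hn1 hn2).1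
    have e2 := (hmono n ((J + 1) ^ (2 * Q)) hn1 hn2 le_rfl).1
    rw [hta, sub_zero] at e1
    rw [htb] at e2
    have e3 : ((J ^ (2 * Q) : ℕ) : ℝ) ≤ n := by exact_mod_cast hn1
    have e4 : (n : ℝ) ≤ (((J + 1) ^ (2 * Q) : ℕ) : ℝ) := by exact_mod_cast hn2
    constructor
    · refine le_trans ?_ e1
      exact div_nonneg (by linarith) (by linarith)
    · have e5 : 0 ≤ ((((J + 1) ^ (2 * Q) : ℕ) : ℝ) - n) / (2 * len) :=
        div_nonneg (by linarith) (by linarith)
      show tau j₀ J (vv Q j₀ n) ≤ 1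
      linarith
  have htd : ∀ n k, J ^ (2 * Q) ≤ n → n ≤ k → k ≤ (J + 1) ^ (2 * Q) →
      |t k - t n| ≤ 2 * ((k : ℝ) - n) / len := by
    intro n k hn1 hnk hk
    have e1 := hmono n k hn1 hnk hk
    have e3 : (n : ℝ) ≤ k := by exact_mod_cast hnk
    rw [abs_of_nonneg]
    · exact e1.2
    · refine le_trans ?_ e1.1
      exact div_nonneg (by linarith) (by linarith)
  have hgroup : ∀ i : ℕ, i < 2 * (4 * Q + 4) → 1 / (32 * (((4 * Q + 4 : ℕ)) : ℝ)) ≤
      ∑ n ∈ S.filter (fun n => (i : ℝ) / (2 * ((4 * Q + 4 : ℕ) : ℝ)) ≤ t n ∧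
        t n ≤ ((i : ℝ) + 1) / (2 * ((4 * Q + 4 : ℕ) : ℝ)) ∧ 1 / 2 ≤ W n), om Q n := by
    intro i hi
    refine groups (4 * Q + 4) len (by omega) (by omega) _ _ hab t (om Q) W hta htb hmono
      (fun n hn1 hn2 => (hom n hn1 hn2).1) ?_ i hi
    intro x y hx hy hxy hl
    exact hWcount x y hx hy hxy (by push_cast at hl; exact hl)
  -- the perturbation
  have hpert : ∀ r q : Polynomial ℝ, r.natDegree < 4 * Q + 4 → q.natDegree < 4 * Q + 4 →
      |Bform Q j₀ J L b W S r q - ∑ n ∈ S, om Q n * W n * r.eval (t n) * q.eval (t n)| ≤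
        ε * nm (4 * Q + 4) r * nm (4 * Q + 4) q := by
    intro r q hr hq
    have hnr := nm_nonneg (4 * Q + 4) r
    have hnq := nm_nonneg (4 * Q + 4) q
    obtain ⟨hitpr, -, -, -⟩ := h2 Q j₀ J L b hQ hj₀ hj₀J hb0 hbL hbm hbp
      (fun k => W k * r.eval (t k))
    have hFb : ∀ k, J ^ (2 * Q) ≤ k → k ≤ (J + 1) ^ (2 * Q) →
        |W k * r.eval (t k)| ≤ nm (4 * Q + 4) r := by
      intro k hk1 hk2
      obtain ⟨hk3, hk4⟩ := ht01 k hk1 hk2
      rw [abs_mul, abs_of_nonneg (hW01 k).1]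
      have := (hpoly r hr (t k) (t k) hk3 hk4 hk3 hk4).1
      calc W k * |r.eval (t k)| ≤ 1 * nm (4 * Q + 4) r :=
            mul_le_mul (hW01 k).2 this (abs_nonneg _) zero_le_one
        _ = _ := one_mul _
    have hFd : ∀ k n, J ^ (2 * Q) ≤ k → k ≤ (J + 1) ^ (2 * Q) → J ^ (2 * Q) ≤ n →
        n ≤ (J + 1) ^ (2 * Q) → |(k : ℝ) - n| ≤ ε / (2 * (Lip + 2 * (4 * (Q : ℝ) + 4))) * len →
        |W k * r.eval (t k) - W n * r.eval (t n)| ≤ ε / 2 * nm (4 * Q + 4) r := by
      intro k n hk1 hk2 hn1 hn2 hkn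
      obtain ⟨hk3, hk4⟩ := ht01 k hk1 hk2
      obtain ⟨hn3, hn4⟩ := ht01 n hn1 hn2
      have e1 : W k * r.eval (t k) - W n * r.eval (t n) =
          (W k - W n) * r.eval (t k) + W n * (r.eval (t k) - r.eval (t n)) := by ring
      rw [e1]
      have hp := hpoly r hr (t k) (t n) hk3 hk4 hn3 hn4
      have htkn : |t k - t n| ≤ 2 * |(k : ℝ) - n| / len := by
        rcases le_total n k with hle | hle
        · have := htd n k hn1 hle hk2
          have e3 : (n : ℝ) ≤ k := by exact_mod_cast hle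
          rwa [abs_of_nonneg (by linarith : (0 : ℝ) ≤ (k : ℝ) - n)]
        · have := htd k n hk1 hle hn2
          have e3 : (k : ℝ) ≤ n := by exact_mod_cast hle
          rw [abs_sub_comm, abs_sub_comm (k : ℝ) n,
            abs_of_nonneg (by linarith : (0 : ℝ) ≤ (n : ℝ) - k)]
          exact this
      have hq1 : |(k : ℝ) - n| / len ≤ ε / (2 * (Lip + 2 * (4 * (Q : ℝ) + 4))) := by
        rw [div_le_iff₀ hlen0]
        exact hkn
      refine (abs_add_le _ _).trans ?_
      rw [abs_mul, abs_mul, abs_of_nonneg (hW01 n).1]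
      have e5 : |W k - W n| * |r.eval (t k)| ≤
          (Lip * (|(k : ℝ) - n| / len)) * nm (4 * Q + 4) r := by
        apply mul_le_mul _ hp.1 (abs_nonneg _) (by positivity)
        have := hWLip k n
        rwa [mul_div_assoc] at this
      have e6 : W n * |r.eval (t k) - r.eval (t n)| ≤
          (2 * (4 * (Q : ℝ) + 4) * (|(k : ℝ) - n| / len)) * nm (4 * Q + 4) r := by
        calc W n * |r.eval (t k) - r.eval (t n)| ≤ 1 * ((4 * Q + 4) * nm (4 * Q + 4) r *
              (2 * |(k : ℝ) - n| / len)) := by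
              apply mul_le_mul (hW01 n).2 _ (abs_nonneg _) zero_le_one
              refine hp.2.trans ?_
              exact mul_le_mul_of_nonneg_left htkn (by positivity)
          _ = _ := by ring
      have e7 : (Lip + 2 * (4 * (Q : ℝ) + 4)) * (|(k : ℝ) - n| / len) ≤ ε / 2 := by
        calc (Lip + 2 * (4 * (Q : ℝ) + 4)) * (|(k : ℝ) - n| / len) ≤
              (Lip + 2 * (4 * (Q : ℝ) + 4)) * (ε / (2 * (Lip + 2 * (4 * (Q : ℝ) + 4)))) :=
              mul_le_mul_of_nonneg_left hq1 (by positivity)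
          _ = ε / 2 := by field_simp
      calc _ ≤ (Lip * (|(k : ℝ) - n| / len)) * nm (4 * Q + 4) r +
            (2 * (4 * (Q : ℝ) + 4) * (|(k : ℝ) - n| / len)) * nm (4 * Q + 4) r :=
            add_le_add e5 e6
        _ = ((Lip + 2 * (4 * (Q : ℝ) + 4)) * (|(k : ℝ) - n| / len)) * nm (4 * Q + 4) r := by
            ring
        _ ≤ _ := mul_le_mul_of_nonneg_right e7 hnr
    -- interpolation
    have hint : ∀ n ∈ S, |itp b L (fun k => W k * r.eval (t k)) n| ≤ nm (4 * Q + 4) r ∧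
        |itp b L (fun k => W k * r.eval (t k)) n - W n * r.eval (t n)| ≤
          ε / 2 * nm (4 * Q + 4) r := by
      intro n hn
      rw [hS, Finset.mem_Ico] at hn
      obtain ⟨i, hiL, hi1, hi2⟩ := exists_block b L n (by rw [hb0]; exact hn.1)
        (by rw [hbL]; exact hn.2)
      obtain ⟨θ, hθ0, hθ1, hθ⟩ := hitpr i n hiL hi1 hi2.le
      have hbmon : ∀ i' j', i' ≤ j' → j' ≤ L → b i' ≤ b j' := by
        intro i' j' hij
        induction hij with
        | refl => intro _; exact le_rfl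
        | step _ ih => intro hjL; exact (ih (by omega)).trans (hbm _ (by omega)).le
      have hbi1 : J ^ (2 * Q) ≤ b i := by rw [← hb0]; exact hbmon 0 i (by omega) (by omega)
      have hbi2 : b (i + 1) ≤ (J + 1) ^ (2 * Q) := by
        rw [← hbL]; exact hbmon (i + 1) L (by omega) le_rfl
      have hbb := hbm i hiL
      have hs := hbs i hiL
      have c1 : (b i : ℝ) ≤ n := by exact_mod_cast hi1
      have c2 : (n : ℝ) ≤ b (i + 1) := by exact_mod_cast hi2.le
      have A1 := hFb (b i) hbi1 (by omega)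
      have A2 := hFb (b (i + 1)) (by omega) hbi2
      have B1 := hFd (b i) n hbi1 (by omega) hn.1 hn.2.le (by
        rw [abs_of_nonpos (by linarith)]
        linarith)
      have B2 := hFd (b (i + 1)) n (by omega) hbi2 hn.1 hn.2.le (by
        rw [abs_of_nonneg (by linarith)]
        linarith)
      have hθ' : itp b L (fun k => W k * r.eval (t k)) n =
          (1 - θ) * (W (b i) * r.eval (t (b i))) +
            θ * (W (b (i + 1)) * r.eval (t (b (i + 1)))) := hθ
      rw [hθ']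
      generalize W (b i) * r.eval (t (b i)) = X₁ at A1 B1 ⊢
      generalize W (b (i + 1)) * r.eval (t (b (i + 1))) = X₂ at A2 B2 ⊢
      generalize W n * r.eval (t n) = X₃ at B1 B2 ⊢
      constructor
      · refine (abs_add_le _ _).trans ?_
        rw [abs_mul, abs_mul, abs_of_nonneg hθ0, abs_of_nonneg (by linarith : 0 ≤ 1 - θ)]
        have g1 := mul_le_mul_of_nonneg_left A1 (by linarith : 0 ≤ 1 - θ)
        have g2 := mul_le_mul_of_nonneg_left A2 hθ0
        nlinarith
      · have e8 : (1 - θ) * X₁ + θ * X₂ - X₃ = (1 - θ) * (X₁ - X₃) + θ * (X₂ - X₃) := by ring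
        rw [e8]
        refine (abs_add_le _ _).trans ?_
        rw [abs_mul, abs_mul, abs_of_nonneg hθ0, abs_of_nonneg (by linarith : 0 ≤ 1 - θ)]
        have g1 := mul_le_mul_of_nonneg_left B1 (by linarith : 0 ≤ 1 - θ)
        have g2 := mul_le_mul_of_nonneg_left B2 hθ0
        nlinarith
    -- one term
    have hterm : ∀ n ∈ S, |itp b L (fun k => W k * r.eval (t k)) n *
        (2 * j₀ * gw Q j₀ J q n) - om Q n * W n * r.eval (t n) * q.eval (t n)| ≤
        nm (4 * Q + 4) r * (CG * nm (4 * Q + 4) q / len ^ 2) +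
          ε / 2 * nm (4 * Q + 4) r * (om Q n * nm (4 * Q + 4) q) := by
      intro n hn
      obtain ⟨I1, I2⟩ := hint n hn
      rw [hS, Finset.mem_Ico] at hn
      have hg := hgw q hq n hn.1 hn.2
      have ho : 0 ≤ om Q n := le_trans (by positivity) (hom n hn.1 hn.2).1
      obtain ⟨hn3, hn4⟩ := ht01 n hn.1 hn.2.le
      have hqn := (hpoly q hq (t n) (t n) hn3 hn4 hn3 hn4).1
      generalize itp b L (fun k => W k * r.eval (t k)) n = I at I1 I2 ⊢
      have e9 : I * (2 * j₀ * gw Q j₀ J q n) - om Q n * W n * r.eval (t n) * q.eval (t n) =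
          I * (2 * j₀ * gw Q j₀ J q n - om Q n * q.eval (t n)) +
            (I - W n * r.eval (t n)) * (om Q n * q.eval (t n)) := by ring
      rw [e9]
      refine (abs_add_le _ _).trans ?_
      rw [abs_mul, abs_mul, abs_mul (om Q n), abs_of_nonneg ho]
      apply add_le_add
      · exact mul_le_mul I1 hg (abs_nonneg _) hnr
      · exact mul_le_mul I2 (mul_le_mul_of_nonneg_left hqn ho) (by positivity) (by positivity)
    have hBf : Bform Q j₀ J L b W S r q = ∑ n ∈ S, itp b L (fun k => W k * r.eval (t k)) n *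
        (2 * j₀ * gw Q j₀ J q n) := rfl
    rw [hBf, ← Finset.sum_sub_distrib]
    refine (Finset.abs_sum_le_sum_abs _ _).trans ?_
    refine (Finset.sum_le_sum hterm).trans ?_
    rw [Finset.sum_add_distrib, Finset.sum_const, nsmul_eq_mul, ← Finset.mul_sum,
      ← Finset.sum_mul, hsum, one_mul]
    have hScard : (S.card : ℝ) = len := by
      rw [hS, Nat.card_Ico, hab, Nat.add_sub_cancel_left]
    rw [hScard]
    have hCGl : CG / len ≤ ε / 2 := by
      rw [div_le_iff₀ hlen0]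
      have h5 : (J₂ : ℝ) ≤ J := by exact_mod_cast hJJ₂
      have h6 : 2 * CG / ε ≤ len := hJ₂.trans (h5.trans hlenJ)
      rw [div_le_iff₀ hε] at h6
      linarith
    have e10 : (len : ℝ) * (nm (4 * Q + 4) r * (CG * nm (4 * Q + 4) q / len ^ 2)) =
        (CG / len) * (nm (4 * Q + 4) r * nm (4 * Q + 4) q) := by
      field_simp
    rw [e10]
    have e11 := mul_le_mul_of_nonneg_right hCGl (mul_nonneg hnr hnq)
    nlinarith
  -- the correction
  obtain ⟨r, hrdeg, hrnm, hrB⟩ := hLina S t (om Q) W (Bform Q j₀ J L b W S)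
    (lform Q j₀ J L b m S) (2 * lam)
    (fun n hn => by
      rw [hS, Finset.mem_Ico] at hn
      exact ht01 n hn.1 hn.2.le)
    (fun n hn => by
      rw [hS, Finset.mem_Ico] at hn
      exact le_trans (by positivity) (hom n hn.1 hn.2).1)
    (fun n _ => hW01 n) hgroup hpert (by positivity)
    (by
      intro q hq
      have e1 : lform Q j₀ J L b m S q = -(2 * j₀ * ∑ n ∈ S, itp b L m n * gw Q j₀ J q n) := by
        show -∑ n ∈ S, itp b L m n * (2 * j₀ * gw Q j₀ J q n) = _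
        congr 1
        rw [Finset.mul_sum]
        refine Finset.sum_congr rfl fun n _ => ?_
        ring
      rw [e1, abs_neg, abs_mul, abs_of_nonneg (by positivity : (0 : ℝ) ≤ 2 * j₀)]
      calc 2 * (j₀ : ℝ) * |∑ n ∈ S, itp b L m n * gw Q j₀ J q n| ≤
            2 * (j₀ : ℝ) * (lam * nm (4 * Q + 4) q / j₀) :=
            mul_le_mul_of_nonneg_left (hm q hq) (by positivity)
        _ = 2 * lam * nm (4 * Q + 4) q := by field_simp)
  refine ⟨r, hrdeg, ?_, ?_⟩
  · calc nm (4 * Q + 4) r ≤ CL * (2 * lam) := hrnm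
      _ = CL * 2 * lam := by ring
  · intro P hP
    obtain ⟨-, -, -, hfin⟩ := h2 Q j₀ J L b hQ hj₀ hj₀J hb0 hbL hbm hbp
      (fun n => m n + W n * r.eval (tau j₀ J (vv Q j₀ n)))
    have hz : ∀ q : Polynomial ℝ, q.natDegree < 4 * Q + 4 →
        ∑ n ∈ Ico (J ^ (2 * Q)) ((J + 1) ^ (2 * Q)),
          itp b L (fun n => m n + W n * r.eval (tau j₀ J (vv Q j₀ n))) n * gw Q j₀ J q n = 0 := by
      intro q hq
      have e1 := hrB q hq
      have e2 : ∑ n ∈ S, itp b L (fun k => W k * r.eval (tau j₀ J (vv Q j₀ k))) n *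
          (2 * j₀ * gw Q j₀ J q n) = -∑ n ∈ S, itp b L m n * (2 * j₀ * gw Q j₀ J q n) := e1
      have e3 : 2 * (j₀ : ℝ) * ∑ n ∈ S,
          itp b L (fun n => m n + W n * r.eval (tau j₀ J (vv Q j₀ n))) n * gw Q j₀ J q n = 0 := by
        rw [Finset.mul_sum]
        have e4 : ∀ n ∈ S, 2 * (j₀ : ℝ) *
            (itp b L (fun n => m n + W n * r.eval (tau j₀ J (vv Q j₀ n))) n * gw Q j₀ J q n) =
            itp b L m n * (2 * j₀ * gw Q j₀ J q n) +
              itp b L (fun k => W k * r.eval (tau j₀ J (vv Q j₀ k))) n *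
                (2 * j₀ * gw Q j₀ J q n) := by
          intro n _
          rw [itp_add]
          ring
        rw [Finset.sum_congr rfl e4, Finset.sum_add_distrib, e2]
        ring
      rcases mul_eq_zero.1 e3 with h | h
      · exfalso
        have : (0 : ℝ) < 2 * j₀ := by positivity
        linarith
      · exact h
    have h5 := hfin hz P hP
    rw [h5, hWa, hWb]
    ring

end Pool.Agent.W356.LV
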